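import Pool.Agent.H499R2.HL.B

set_option autoImplicit false

/-! The limit law of the heights of odd integers under the `3x+1` map. -/

namespace Pool.Agent.Results.MP_2b866c_nt.HeightLaw

open Filter Topology

/-- `C(m) = (3m+1)/2^e(m)`, `2^e(m)` the largest power of `2` dividing `3m+1` -/
def C (m : ℕ) : ℕ := (3 * m + 1) / 2 ^ padicValNat 2 (3 * m + 1)

/-- the height `h(m)`, the least `k ≥ 1` with `C^k(m) = 1`, and `⊤ = ∞` if there is none -/
noncomputable def height (m : ℕ) : ℕ∞ := sInf {k : ℕ∞ | ∃ j : ℕ, 1 ≤ j ∧ C^[j] m = 1 ∧ k = j}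

/-- among the odd positive integers, those with the property `P` have the natural density `δ` -/
def HasOddDensity (P : ℕ → Prop) (δ : ℝ) : Prop :=
  Tendsto (fun N : ℕ => 2 / (N : ℝ) * ({m : ℕ | m ≤ N ∧ Odd m ∧ P m}.ncard : ℝ)) atTop (𝓝 δ)

/-- `2 / log (16/9) * log m + x * log 2 * √(2 log m / (log (4/3))^3)` -/
noncomputable def bound (x : ℝ) (m : ℕ) : ℝ :=
  2 / Real.log (16 / 9) * Real.log m
    + x * (Real.log 2 * Real.sqrt (2 * Real.log m / Real.log (4 / 3) ^ 3))

/-- The distribution function of the standard normal law. -/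
noncomputable def Phi (x : ℝ) : ℝ :=
  ProbabilityTheory.cdf (ProbabilityTheory.gaussianReal 0 1) x

open Pool.Agent.H499R2.ND in
theorem height_eq {m h : ℕ} (hh : IsHt m h) : height m = h := by
  unfold height
  apply le_antisymm
  · exact sInf_le ⟨h, hh.1, hh.2.1, rfl⟩
  · refine le_sInf ?_
    rintro k ⟨j, hj, hj1, rfl⟩
    have : h ≤ j := by
      by_contra hlt
      exact hh.2.2 j hj (by omega) hj1
    exact_mod_cast this

open Pool.Agent.H499R2.ND in
theorem exists_isHt {m j : ℕ} (hj : 1 ≤ j) (h : C^[j] m = 1) : ∃ h, IsHt m h := by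
  classical
  have hex : ∃ k, 1 ≤ k ∧ C^[k] m = 1 := ⟨j, hj, h⟩
  refine ⟨Nat.find hex, (Nat.find_spec hex).1, (Nat.find_spec hex).2, fun k hk hlt hk1 => ?_⟩
  exact Nat.find_min hex hlt ⟨hk, hk1⟩

open Pool.Agent.H499R2.ND in
theorem height_top {m : ℕ} (hh : ¬ ∃ h, IsHt m h) : height m = ⊤ := by
  unfold height
  have : {k : ℕ∞ | ∃ j : ℕ, 1 ≤ j ∧ C^[j] m = 1 ∧ k = j} = ∅ := by
    rw [Set.eq_empty_iff_forall_notMem]
    rintro k ⟨j, hj, hj1, _⟩
    exact hh (exists_isHt hj hj1)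
  rw [this, sInf_empty]

open Pool.Agent.H499R2.ND in
theorem height_lt_top_iff {m : ℕ} : height m ≠ ⊤ ↔ ∃ h, IsHt m h := by
  constructor
  · intro h
    by_contra hcon
    exact h (height_top hcon)
  · rintro ⟨h, hh⟩
    rw [height_eq hh]
    exact ENat.natCast_ne_top h

open Pool.Agent.H499R2.ND in
theorem height_iff {m h : ℕ} : height m = h ↔ IsHt m h := by
  constructor
  · intro hm
    obtain ⟨h', hh'⟩ := height_lt_top_iff.1 (show height m ≠ ⊤ by rw [hm]; exact ENat.natCast_ne_top h)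
    have h1 := height_eq hh'
    rw [hm] at h1
    have h2 : h = h' := by exact_mod_cast h1
    rw [h2]; exact hh'
  · exact height_eq

open Pool.Agent.H499R2.ND in
theorem odd_density_of {P : ℕ → Prop} {δ : ℝ} (h : Dn (fun m => m % 2 = 1 ∧ P m) (δ / 2)) :
    HasOddDensity P δ := by
  unfold HasOddDensity
  have h1 := h.const_mul 2
  rw [mul_div_cancel₀ δ (by norm_num : (2 : ℝ) ≠ 0)] at h1
  refine h1.congr fun N => ?_
  have e : {m : ℕ | 1 ≤ m ∧ m ≤ N ∧ m % 2 = 1 ∧ P m} = {m : ℕ | m ≤ N ∧ Odd m ∧ P m} := by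
    ext m
    constructor
    · rintro ⟨g1, g2, g3, g4⟩
      exact ⟨g2, Nat.odd_iff.2 g3, g4⟩
    · rintro ⟨g2, g3, g4⟩
      exact ⟨g3.pos, g2, Nat.odd_iff.1 g3, g4⟩
  unfold cnt
  rw [e]
  ring

theorem bound_eq (x : ℝ) (m : ℕ) : bound x m = Pool.Agent.H499R2.HL.bo x (Real.log m) := by
  unfold bound Pool.Agent.H499R2.HL.bo
  have : Real.log (16 / 9) = 2 * Real.log (4 / 3) := by
    rw [show (16 : ℝ) / 9 = (4 / 3) ^ 2 by norm_num, Real.log_pow]; push_cast; ring
  rw [this]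
  have : Real.log (4 / 3) ≠ 0 := (Real.log_pos (by norm_num)).ne'
  congr 2
  field_simp

/-- THE LIMIT LAW OF THE HEIGHTS. Among the odd positive integers those of finite height have a
positive natural density `δ`, equal to `1` iff all heights are finite. For every `q ≥ 1` and every
`b` the `m` with finite `h(m) ≡ b` modulo `q` have density `δ / q`, and those with, moreover,
`h(m) ≤ bound x m` have density `δ * Phi x / q`, for every real `x`. -/
theorem result : ∃ δ : ℝ, 0 < δ ∧ δ ≤ 1 ∧ (δ = 1 ↔ ∀ m : ℕ, Odd m → height m ≠ ⊤) ∧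
    HasOddDensity (fun m => height m ≠ ⊤) δ ∧
    ∀ (q : ℕ) (b : ℤ), 1 ≤ q →
      HasOddDensity (fun m => ∃ h : ℕ, height m = h ∧ (h : ℤ) ≡ b [ZMOD q]) (δ / q) ∧
      ∀ x : ℝ, HasOddDensity (fun m => ∃ h : ℕ, height m = h ∧ (h : ℝ) ≤ bound x m ∧
        (h : ℤ) ≡ b [ZMOD q]) (δ * Phi x / q) := by
  obtain ⟨δ, h0, h1, h2, h3, h4⟩ := Pool.Agent.H499R2.HL.law_ht
  refine ⟨δ, h0, h1, ?_, odd_density_of ?_, fun q b hq => ⟨odd_density_of ?_, fun x => odd_density_of ?_⟩⟩
  · rw [h2]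
    exact forall_congr' fun m => forall_congr' fun _ => height_lt_top_iff.symm
  · exact Pool.Agent.H499R2.LT.Dn_iff (fun n _ => and_congr_right fun _ => height_lt_top_iff.symm) h3
  · exact Pool.Agent.H499R2.LT.Dn_iff (fun n _ => and_congr_right fun _ => exists_congr fun h => by
      rw [height_iff]) (h4 q b hq).1
  · have h5 := (h4 q b hq).2 x
    have e : δ / (q : ℝ) * Pool.Agent.H499R2.ND.Phi x / 2 = δ * Phi x / q / 2 := by
      unfold Phi
      rw [← Pool.Agent.H499R2.ND.phi_cdf]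
      ring
    rw [e] at h5
    exact Pool.Agent.H499R2.LT.Dn_iff (fun n _ => and_congr_right fun _ => exists_congr fun h => by
      rw [height_iff, bound_eq]) h5

end Pool.Agent.Results.MP_2b866c_nt.HeightLaw
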