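import Pool.Agent.H499R2.HL.C

set_option autoImplicit false

/-! Runs of consecutive odd integers of equal height under the `3x+1` map. -/

namespace Pool.Agent.Results.MP_2b866c_nt.HeightRuns

open Filter Topology

/-- `C(m) = (3m+1)/2^e(m)`, `2^e(m)` the largest power of `2` dividing `3m+1` -/
def C (m : ℕ) : ℕ := (3 * m + 1) / 2 ^ padicValNat 2 (3 * m + 1)

/-- the height `h(m)`, the least `k ≥ 1` with `C^k(m) = 1`, and `⊤ = ∞` if there is none -/
noncomputable def height (m : ℕ) : ℕ∞ := sInf {k : ℕ∞ | ∃ j : ℕ, 1 ≤ j ∧ C^[j] m = 1 ∧ k = j}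

/-- among the odd positive integers, those with the property `P` have the natural density `δ` -/
def HasOddDensity (P : ℕ → Prop) (δ : ℝ) : Prop :=
  Tendsto (fun N : ℕ => 2 / (N : ℝ) * ({m : ℕ | m ≤ N ∧ Odd m ∧ P m}.ncard : ℝ)) atTop (𝓝 δ)

open Pool.Agent.H499R2.ND in
theorem height_eq {m h : ℕ} (hh : IsHt m h) : height m = h := by
  unfold height
  apply le_antisymm
  · exact sInf_le ⟨h, hh.1, hh.2.1, rfl⟩
  · refine le_sInf ?_
    rintro k ⟨j, hj, hj1, rfl⟩
    have : h ≤ j := by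
      by_contra hlt
      exact hh.2.2 j hj (by omega) hj1
    exact_mod_cast this

open Pool.Agent.H499R2.ND in
theorem exists_isHt {m j : ℕ} (hj : 1 ≤ j) (h : C^[j] m = 1) : ∃ h, IsHt m h := by
  classical
  have hex : ∃ k, 1 ≤ k ∧ C^[k] m = 1 := ⟨j, hj, h⟩
  refine ⟨Nat.find hex, (Nat.find_spec hex).1, (Nat.find_spec hex).2, fun k hk hlt hk1 => ?_⟩
  exact Nat.find_min hex hlt ⟨hk, hk1⟩

open Pool.Agent.H499R2.ND in
theorem height_top {m : ℕ} (hh : ¬ ∃ h, IsHt m h) : height m = ⊤ := by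
  unfold height
  have : {k : ℕ∞ | ∃ j : ℕ, 1 ≤ j ∧ C^[j] m = 1 ∧ k = j} = ∅ := by
    rw [Set.eq_empty_iff_forall_notMem]
    rintro k ⟨j, hj, hj1, _⟩
    exact hh (exists_isHt hj hj1)
  rw [this, sInf_empty]

open Pool.Agent.H499R2.ND in
theorem height_lt_top_iff {m : ℕ} : height m ≠ ⊤ ↔ ∃ h, IsHt m h := by
  constructor
  · intro h
    by_contra hcon
    exact h (height_top hcon)
  · rintro ⟨h, hh⟩
    rw [height_eq hh]
    exact ENat.natCast_ne_top h

open Pool.Agent.H499R2.ND in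
theorem height_iff {m h : ℕ} : height m = h ↔ IsHt m h := by
  constructor
  · intro hm
    obtain ⟨h', hh'⟩ := height_lt_top_iff.1 (show height m ≠ ⊤ by rw [hm]; exact ENat.natCast_ne_top h)
    have h1 := height_eq hh'
    rw [hm] at h1
    have h2 : h = h' := by exact_mod_cast h1
    rw [h2]; exact hh'
  · exact height_eq

open Pool.Agent.H499R2.ND in
theorem odd_density_of {P : ℕ → Prop} {δ : ℝ} (h : Dn (fun m => m % 2 = 1 ∧ P m) (δ / 2)) :
    HasOddDensity P δ := by
  unfold HasOddDensity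
  have h1 := h.const_mul 2
  rw [mul_div_cancel₀ δ (by norm_num : (2 : ℝ) ≠ 0)] at h1
  refine h1.congr fun N => ?_
  have e : {m : ℕ | 1 ≤ m ∧ m ≤ N ∧ m % 2 = 1 ∧ P m} = {m : ℕ | m ≤ N ∧ Odd m ∧ P m} := by
    ext m
    constructor
    · rintro ⟨g1, g2, g3, g4⟩
      exact ⟨g2, Nat.odd_iff.2 g3, g4⟩
    · rintro ⟨g2, g3, g4⟩
      exact ⟨g3.pos, g2, Nat.odd_iff.1 g3, g4⟩
  unfold cnt
  rw [e]
  ring

theorem height_congr {m n : ℕ} (h : ∀ k : ℕ, Pool.Agent.H499R2.ND.IsHt m k ↔ Pool.Agent.H499R2.ND.IsHt n k) :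
    height m = height n := by
  by_cases hn : ∃ k, Pool.Agent.H499R2.ND.IsHt n k
  · obtain ⟨k, hk⟩ := hn
    rw [height_eq hk, height_eq ((h k).2 hk)]
  · rw [height_top hn, height_top fun ⟨k, hk⟩ => hn ⟨k, (h k).1 hk⟩]

/-- RUNS OF EQUAL HEIGHTS. Let `g n = o(√(log n) / log log n)`. Among the odd positive integers `m`
those for which `m, m + 2, m + 4, ..., m + 2 g(m)` all have the same height (finite or infinite) have
natural density one. -/
theorem result (g : ℕ → ℕ)
    (hg : Tendsto (fun n : ℕ => (g n : ℝ) * Real.log (Real.log n) / √ (Real.log n)) atTop (𝓝 0)) :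
    HasOddDensity (fun m => ∀ j ≤ g m, height (m + 2 * j) = height m) 1 := by
  have h1 := Pool.Agent.H499R2.HL.run_ht (g := g) hg
  apply odd_density_of
  refine Pool.Agent.H499R2.LT.Dn_iff (fun n _ => and_congr_right fun _ => ?_) h1
  constructor
  · intro h j hj
    exact height_congr (h j hj)
  · intro h j hj k
    have h2 := h j hj
    rw [← height_iff, ← height_iff, h2]

end Pool.Agent.Results.MP_2b866c_nt.HeightRuns
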