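import Mathlib
import Pool.Agent.Helper815.Coll.Avg

set_option autoImplicit false

/-!
The lower half of the conjectured average order of the height, with the sharp constant.
-/

namespace Pool.Agent.Results.MP_2b866c_nt.LowerHalf

open scoped ENNReal
open Filter

/-- The map `m ↦ (3m+1)/2^{e(m)}`, where `2^{e(m)}` is the largest power of `2` dividing `3m+1`. -/
def C (m : ℕ) : ℕ := (3 * m + 1) / 2 ^ padicValNat 2 (3 * m + 1)

/-- The height `h(m)`: the least `k ≥ 1` with `C^k(m) = 1`, and `∞` if there is none. -/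
noncomputable def height (m : ℕ) : ℕ∞ := ⨅ (k : ℕ) (_ : 1 ≤ k ∧ C^[k] m = 1), (k : ℕ∞)

/-- `H(x) = (2/x) ∑ h(m)`, the sum being over the odd positive integers `m ≤ x`. -/
noncomputable def H (x : ℝ) : ℝ≥0∞ :=
  ENNReal.ofReal (2 / x) * ∑ m ∈ (Finset.Icc 1 ⌊x⌋₊).filter (fun m => Odd m), (height m : ℝ≥0∞)

open Pool.Agent.Helper894.Collatz in
theorem halve (e q : ℕ) : T^[e] (2 ^ e * q) = q ∧ od e (2 ^ e * q) = 0 := by
  induction e with
  | zero => simp [od]
  | succ e ih =>
    have h0 : (2 ^ (e + 1) * q) % 2 = 0 := by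
      have h2 : 2 ^ (e + 1) * q = 2 * (2 ^ e * q) := by ring
      omega
    have h1 : T (2 ^ (e + 1) * q) = 2 ^ e * q := by
      have := T_even h0
      have h2 : 2 ^ (e + 1) * q = 2 * (2 ^ e * q) := by ring
      omega
    constructor
    · rw [Function.iterate_succ_apply, h1]; exact ih.1
    · have h3 := od_add 1 e (2 ^ (e + 1) * q)
      rw [add_comm 1 e] at h3
      rw [h3, Function.iterate_one, h1, ih.2]
      simp [od, h0]

open Pool.Agent.Helper894.Collatz in
theorem C_spec {m : ℕ} (hm : Odd m) : Odd (C m) ∧ ∃ K : ℕ, T^[K] m = C m ∧ od K m = 1 := by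
  obtain ⟨e, q, hq, he⟩ := Nat.exists_eq_two_pow_mul_odd (n := 3 * m + 1) (by omega)
  have hv : padicValNat 2 (3 * m + 1) = e := by
    rw [he, padicValNat.mul (by positivity) (by rintro rfl; simp at hq), padicValNat.prime_pow,
      padicValNat.eq_zero_of_not_dvd (by rw [← even_iff_two_dvd, Nat.not_even_iff_odd]; exact hq)]
    rfl
  have hC : C m = q := by
    unfold C
    rw [hv, he]
    exact Nat.mul_div_cancel_left _ (by positivity)
  rw [hC]
  refine ⟨hq, e, ?_⟩
  have hm2 : m % 2 = 1 := Nat.odd_iff.1 hm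
  have he1 : 1 ≤ e := by
    by_contra h0
    have h0 : e = 0 := by omega
    rw [h0, pow_zero, one_mul] at he
    have := Nat.odd_iff.1 hq
    omega
  obtain ⟨f, rfl⟩ := Nat.exists_eq_add_of_le he1
  have h1 : T m = 2 ^ f * q := by
    have := T_odd hm2
    have h2 : 2 ^ (1 + f) * q = 2 * (2 ^ f * q) := by ring
    omega
  constructor
  · rw [add_comm, Function.iterate_add_apply, Function.iterate_one, h1]; exact (halve f q).1
  · rw [od_add, Function.iterate_one, h1, (halve f q).2]
    simp [od, hm2]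

open Pool.Agent.Helper894.Collatz in
theorem C_iter (j : ℕ) : ∀ m : ℕ, Odd m → Odd (C^[j] m) ∧ ∃ K : ℕ, T^[K] m = C^[j] m ∧ od K m = j := by
  induction j with
  | zero => intro m hm; exact ⟨hm, 0, rfl, by simp [od]⟩
  | succ j ih =>
    intro m hm
    obtain ⟨h1, K, h2, h3⟩ := ih m hm
    obtain ⟨h4, K', h5, h6⟩ := C_spec h1
    rw [Function.iterate_succ_apply']
    refine ⟨h4, K + K', ?_, ?_⟩
    · rw [add_comm, Function.iterate_add_apply, h2]; exact h5
    · rw [od_add, h2, h6, h3]

open Pool.Agent.Helper894.Collatz in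
theorem iter_le_two (d : ℕ) : T^[d] 1 = 1 ∨ T^[d] 1 = 2 := by
  induction d with
  | zero => left; rfl
  | succ d ih =>
    rw [Function.iterate_succ_apply']
    rcases ih with h | h
    · right; rw [h]; rfl
    · left; rw [h]; rfl

open Pool.Agent.Helper894.Collatz in
/-- the height is at least the number of odd steps before any point larger than `2` -/
theorem le_height {c : ℝ} {k m : ℕ} (hm : Odd m) (hD : D c k m) :
    ENNReal.ofReal (c * k) ≤ (height m : ℝ≥0∞) := by
  obtain ⟨K, hc, hK⟩ := hD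
  have h1 : ((od K m : ℕ) : ℕ∞) ≤ height m := by
    unfold height
    refine le_iInf fun j => le_iInf fun hj => ?_
    rw [Nat.cast_le]
    obtain ⟨_, K', h2, h3⟩ := C_iter j m hm
    rw [hj.2] at h2
    rcases le_or_gt K K' with h | h
    · rw [← h3]
      exact Finset.sum_le_sum_of_subset (Finset.range_mono h)
    · exfalso
      obtain ⟨d, rfl⟩ := Nat.exists_eq_add_of_le h.le
      rw [add_comm, Function.iterate_add_apply, h2] at hK
      rcases iter_le_two d with h4 | h4 <;> omega
  calc ENNReal.ofReal (c * k) ≤ ENNReal.ofReal ((od K m : ℕ) : ℝ) := ENNReal.ofReal_le_ofReal hc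
    _ = ((od K m : ℕ) : ℝ≥0∞) := ENNReal.ofReal_natCast _
    _ = (((od K m : ℕ) : ℕ∞) : ℝ≥0∞) := (ENat.toENNReal_coe _).symm
    _ ≤ (height m : ℝ≥0∞) := ENat.toENNReal_le.2 h1

open Pool.Agent.Helper894.Collatz in
/-- `liminf H(x) / log x ≥ 2 / log (16/9)`: the lower half of the conjectured average order, with the
sharp constant; heights may be infinite. -/
theorem result : ∀ c : ℝ, c < 2 / Real.log (16 / 9) →
    ∀ᶠ x : ℝ in atTop, ENNReal.ofReal (c * Real.log x) ≤ H x := by
  classical
  intro c0 hc0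
  have hL : 0 < Real.log 2 := Real.log_pos (by norm_num)
  have hM : 0 < Real.log (4 / 3) := Real.log_pos (by norm_num)
  have hMM : Real.log (16 / 9) = 2 * Real.log (4 / 3) := by
    rw [show (16 : ℝ) / 9 = (4 / 3) ^ 2 by norm_num, Real.log_pow]; push_cast; ring
  have hc1 : c0 * Real.log 2 < Real.log 2 / Real.log (4 / 3) := by
    rw [hMM] at hc0
    have : (2 : ℝ) / (2 * Real.log (4 / 3)) = 1 / Real.log (4 / 3) := by
      field_simp
    rw [this] at hc0
    calc c0 * Real.log 2 < 1 / Real.log (4 / 3) * Real.log 2 := mul_lt_mul_of_pos_right hc0 hL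
      _ = _ := by ring
  obtain ⟨c, hca, hcb⟩ := exists_between (max_lt hc1 (div_pos hL hM) :
    max (c0 * Real.log 2) 0 < Real.log 2 / Real.log (4 / 3))
  have hc : 0 < c := (le_max_right _ _).trans_lt hca
  have hcc : c0 * Real.log 2 < c := (le_max_left _ _).trans_lt hca
  obtain ⟨K0, hK0⟩ := Pool.Agent.Helper815.Coll.P_all hc.le (by rwa [lt_div_iff₀ hM] at hcb) 1
  -- largeness conditions
  have hev : ∀ᶠ x : ℝ in atTop, 8 * c ≤ (c / Real.log 2 - c0) * Real.log x := by
    have hpos : 0 < c / Real.log 2 - c0 := by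
      rw [sub_pos, lt_div_iff₀ hL]; exact hcc
    exact (Real.tendsto_log_atTop.const_mul_atTop hpos).eventually (eventually_ge_atTop _)
  filter_upwards [hev, eventually_ge_atTop ((2 : ℝ) ^ (K0 + 3)), eventually_ge_atTop 16] with x hx1 hx2 hx16
  have hx0 : 0 < x := by linarith
  set N := ⌊x⌋₊ with hN
  have hN2 : 2 ^ (K0 + 3) ≤ N := Nat.le_floor (by push_cast; exact hx2)
  have hN0 : N ≠ 0 := by
    have : 0 < 2 ^ (K0 + 3) := by positivity
    omega
  have hNx : (N : ℝ) ≤ x := Nat.floor_le hx0.le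
  have hxN : x < N + 1 := Nat.lt_floor_add_one x
  set k := Nat.log 2 N + 1 with hk
  have hk1 : N < 2 ^ k := Nat.lt_pow_succ_log_self (by norm_num) N
  have hk2 : 2 ^ k ≤ 2 * N := by
    rw [hk, pow_succ, mul_comm]
    exact Nat.mul_le_mul_left _ (Nat.pow_log_le_self 2 hN0)
  have hkK : K0 + 3 ≤ k := by
    have : 2 ^ (K0 + 3) < 2 ^ k := lt_of_le_of_lt hN2 hk1
    exact ((Nat.pow_lt_pow_iff_right (by norm_num)).1 this).le
  have hcnt := hK0 k (by omega)
  rw [pow_one] at hcnt
  -- good numbers
  set G := ((Finset.Icc 1 N).filter (fun m => Odd m)).filter (fun m => D c k m) with hG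
  set B := ((Finset.Icc 1 N).filter (fun m => Odd m)).filter (fun m => ¬ D c k m) with hB
  have hBcard : B.card ≤ cnt c k := by
    unfold cnt
    apply Finset.card_le_card
    intro m hm
    simp only [hB, Finset.mem_filter, Finset.mem_Icc, Finset.mem_range] at hm ⊢
    exact ⟨by omega, hm.2⟩
  have hodd : N ≤ 2 * ((Finset.Icc 1 N).filter (fun m => Odd m)).card := by
    have hsub : (Finset.range ((N + 1) / 2)).image (fun i => 2 * i + 1) ⊆
        (Finset.Icc 1 N).filter (fun m => Odd m) := by
      intro m hm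
      simp only [Finset.mem_image, Finset.mem_range, Finset.mem_filter, Finset.mem_Icc] at hm ⊢
      obtain ⟨i, hi, rfl⟩ := hm
      refine ⟨by omega, ⟨i, rfl⟩⟩
    have h1 := Finset.card_le_card hsub
    rw [Finset.card_image_of_injective _ (fun a b h => by simpa using h), Finset.card_range] at h1
    omega
  have hGB : G.card + B.card = ((Finset.Icc 1 N).filter (fun m => Odd m)).card :=
    Finset.card_filter_add_card_filter_not (s := (Finset.Icc 1 N).filter (fun m => Odd m)) _
  -- the sum
  have hsum : ENNReal.ofReal (G.card * (c * k)) ≤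
      ∑ m ∈ (Finset.Icc 1 N).filter (fun m => Odd m), (height m : ℝ≥0∞) := by
    calc ENNReal.ofReal (G.card * (c * k)) = G.card * ENNReal.ofReal (c * k) := by
          rw [ENNReal.ofReal_mul (by positivity), ENNReal.ofReal_natCast]
      _ = ∑ m ∈ G, ENNReal.ofReal (c * k) := by
          rw [Finset.sum_const, nsmul_eq_mul]
      _ ≤ ∑ m ∈ G, (height m : ℝ≥0∞) := by
          apply Finset.sum_le_sum
          intro m hm
          rw [hG, Finset.mem_filter, Finset.mem_filter] at hm
          exact le_height hm.1.2 hm.2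
      _ ≤ _ := Finset.sum_le_sum_of_subset (Finset.filter_subset _ _)
  unfold H
  rw [← hN]
  refine le_trans ?_ (mul_le_mul_right hsum _)
  rw [← ENNReal.ofReal_mul (by positivity)]
  apply ENNReal.ofReal_le_ofReal
  -- real inequality
  have hkpos : (0 : ℝ) < k := by
    have : 0 < k := by omega
    exact_mod_cast this
  have hB2 : (B.card : ℝ) * k ≤ 2 * N := by
    have : B.card * k ≤ 2 * N := (Nat.mul_le_mul_right _ hBcard).trans (hcnt.trans hk2)
    exact_mod_cast this
  have hG2 : (N : ℝ) ≤ 2 * (G.card + B.card) := by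
    have : N ≤ 2 * (G.card + B.card) := by rw [hGB]; exact hodd
    exact_mod_cast this
  have hklog : Real.log x ≤ k * Real.log 2 := by
    have h1 : x ≤ 2 ^ k := by
      have : (N : ℝ) + 1 ≤ 2 ^ k := by exact_mod_cast hk1
      linarith
    have h := Real.log_le_log hx0 h1
    rwa [Real.log_pow] at h
  have hkx : (k : ℝ) ≤ x := by
    have h1 : k ≤ N := by
      have h2 : Nat.log 2 N < N := Nat.log_lt_self 2 hN0
      omega
    have : (k : ℝ) ≤ N := by exact_mod_cast h1
    linarith
  -- `G ≥ N/2 - B`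
  have h3 : (x / 2 - 1 / 2) * k - 2 * x ≤ G.card * k := by
    have h4 : (G.card : ℝ) ≥ x / 2 - 1 / 2 - B.card := by linarith
    have h5 := mul_le_mul_of_nonneg_right h4.le hkpos.le
    nlinarith
  have h6 : 2 / x * (G.card * (c * k)) = 2 * c / x * (G.card * k) := by ring
  rw [h6]
  have h7 : c * (k - 5) ≤ 2 * c / x * (G.card * k) := by
    have h8 : 2 * c / x * ((x / 2 - 1 / 2) * k - 2 * x) ≤ 2 * c / x * (G.card * k) :=
      mul_le_mul_of_nonneg_left h3 (by positivity)
    refine le_trans ?_ h8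
    have h9 : 2 * c / x * ((x / 2 - 1 / 2) * k - 2 * x) = c * (k - k / x - 4) := by
      field_simp
      ring
    rw [h9]
    apply mul_le_mul_of_nonneg_left _ hc.le
    have : (k : ℝ) / x ≤ 1 := by rw [div_le_one hx0]; exact hkx
    linarith
  refine le_trans ?_ h7
  have h10 : Real.log x / Real.log 2 ≤ k := by rw [div_le_iff₀ hL]; exact hklog
  have h11 : c * (Real.log x / Real.log 2 - 5) ≤ c * (k - 5) :=
    mul_le_mul_of_nonneg_left (by linarith) hc.le
  refine le_trans ?_ h11
  have h12 : c * (Real.log x / Real.log 2 - 5) = c / Real.log 2 * Real.log x - 5 * c := by ring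
  rw [h12]
  have h13 : (c / Real.log 2 - c0) * Real.log x = c / Real.log 2 * Real.log x - c0 * Real.log x := by
    ring
  linarith

end Pool.Agent.Results.MP_2b866c_nt.LowerHalf
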