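import Pool.Agent.H499R2.NDHt

set_option autoImplicit false

/-! Heights of odd integers under the `3x+1` map: normal order and truncated averages. -/

namespace Pool.Agent.Results.MP_2b866c_nt.TruncatedAverages

open Filter Topology

/-- `C(m) = (3m+1)/2^e(m)`, `2^e(m)` the largest power of `2` dividing `3m+1` -/
def C (m : ℕ) : ℕ := (3 * m + 1) / 2 ^ padicValNat 2 (3 * m + 1)

/-- the height `h(m)`, the least `k ≥ 1` with `C^k(m) = 1`, and `⊤ = ∞` if there is none -/
noncomputable def height (m : ℕ) : ℕ∞ := sInf {k : ℕ∞ | ∃ j : ℕ, 1 ≤ j ∧ C^[j] m = 1 ∧ k = j}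

/-- `min(h(m), L)`, a natural number -/
noncomputable def truncHeight (m L : ℕ) : ℕ := (min (height m) (L : ℕ∞)).toNat

/-- among the odd positive integers, those with the property `P` have the natural density `δ` -/
def HasOddDensity (P : ℕ → Prop) (δ : ℝ) : Prop :=
  Tendsto (fun N : ℕ => 2 / (N : ℝ) * ({m : ℕ | m ≤ N ∧ Odd m ∧ P m}.ncard : ℝ)) atTop (𝓝 δ)

open Pool.Agent.H499R2.ND in
theorem height_eq {m h : ℕ} (hh : IsHt m h) : height m = h := by
  unfold height
  apply le_antisymm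
  · exact sInf_le ⟨h, hh.1, hh.2.1, rfl⟩
  · refine le_sInf ?_
    rintro k ⟨j, hj, hj1, rfl⟩
    have : h ≤ j := by
      by_contra hlt
      exact hh.2.2 j hj (by omega) hj1
    exact_mod_cast this

open Pool.Agent.H499R2.ND in
theorem exists_isHt {m j : ℕ} (hj : 1 ≤ j) (h : C^[j] m = 1) : ∃ h, IsHt m h := by
  classical
  have hex : ∃ k, 1 ≤ k ∧ C^[k] m = 1 := ⟨j, hj, h⟩
  refine ⟨Nat.find hex, (Nat.find_spec hex).1, (Nat.find_spec hex).2, fun k hk hlt hk1 => ?_⟩
  exact Nat.find_min hex hlt ⟨hk, hk1⟩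

open Pool.Agent.H499R2.ND in
theorem height_top {m : ℕ} (hh : ¬ ∃ h, IsHt m h) : height m = ⊤ := by
  unfold height
  have : {k : ℕ∞ | ∃ j : ℕ, 1 ≤ j ∧ C^[j] m = 1 ∧ k = j} = ∅ := by
    rw [Set.eq_empty_iff_forall_notMem]
    rintro k ⟨j, hj, hj1, _⟩
    exact hh (exists_isHt hj hj1)
  rw [this, sInf_empty]

open Pool.Agent.H499R2.ND in
theorem height_lt_top_iff {m : ℕ} : height m ≠ ⊤ ↔ ∃ h, IsHt m h := by
  constructor
  · intro h
    by_contra hcon
    exact h (height_top hcon)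
  · rintro ⟨h, hh⟩
    rw [height_eq hh]
    exact ENat.natCast_ne_top h

open Pool.Agent.H499R2.ND in
theorem odd_density_of {P : ℕ → Prop} {δ : ℝ} (h : Dn (fun m => m % 2 = 1 ∧ P m) (δ / 2)) :
    HasOddDensity P δ := by
  unfold HasOddDensity
  have h1 := h.const_mul 2
  rw [mul_div_cancel₀ δ (by norm_num : (2 : ℝ) ≠ 0)] at h1
  refine h1.congr fun N => ?_
  have e : {m : ℕ | 1 ≤ m ∧ m ≤ N ∧ m % 2 = 1 ∧ P m} = {m : ℕ | m ≤ N ∧ Odd m ∧ P m} := by
    ext m
    constructor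
    · rintro ⟨g1, g2, g3, g4⟩
      exact ⟨g2, Nat.odd_iff.2 g3, g4⟩
    · rintro ⟨g2, g3, g4⟩
      exact ⟨g3.pos, g2, Nat.odd_iff.1 g3, g4⟩
  unfold cnt
  rw [e]
  ring

open Pool.Agent.H499R2.ND in
/-- Heights of odd integers: density of the finite ones, normal order, truncated averages. -/
theorem result : ∃ δ : ℝ, 0 < δ ∧ δ ≤ 1 ∧ (δ = 1 ↔ ∀ m : ℕ, Odd m → height m ≠ ⊤) ∧
    HasOddDensity (fun m => height m ≠ ⊤) δ ∧
    (∀ ε : ℝ, 0 < ε → HasOddDensity (fun m => ∃ h : ℕ, height m = h ∧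
      |(h : ℝ) - 2 / Real.log (16 / 9) * Real.log m| ≤ ε * Real.log m) δ) ∧
    (∀ Λ : ℝ, 2 / Real.log (16 / 9) < Λ → Tendsto (fun N : ℕ =>
      (2 / (N : ℝ) * ∑ m ∈ (Finset.Icc 1 N).filter (fun m => m % 2 = 1),
        (truncHeight m ⌊Λ * Real.log N⌋₊ : ℝ)) / Real.log N) atTop
      (𝓝 (δ * (2 / Real.log (16 / 9)) + (1 - δ) * Λ))) := by
  obtain ⟨δ, h0, h1, h2, h3⟩ := Bas_density
  have hMM : 2 / Real.log (16 / 9) = 1 / Real.log (4 / 3) := by
    have : Real.log (16 / 9) = 2 * Real.log (4 / 3) := by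
      rw [show (16 : ℝ) / 9 = (4 / 3) ^ 2 by norm_num, Real.log_pow]; push_cast; ring
    rw [this]
    have : Real.log (4 / 3) ≠ 0 := (Real.log_pos (by norm_num)).ne'
    field_simp
  rw [hMM]
  have hB : Dn (fun m => m % 2 = 1 ∧ Bas m) (δ / 2) := by
    have := inv_prog Bas_inv h3 (q := 2) (by norm_num) 1
    exact_mod_cast this
  have hodd : ∀ m : ℕ, m % 2 = 1 → (Bas m ↔ height m ≠ ⊤) := fun m hm => by
    rw [height_lt_top_iff]
    exact ht_iff (Nat.odd_iff.2 hm)
  refine ⟨δ, h0, h1, ?_, ?_, fun ε hε => ?_, fun Λ hΛ => ?_⟩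
  · rw [h2, bas_all_iff]
    exact forall_congr' fun m => forall_congr' fun _ => height_lt_top_iff.symm
  · apply odd_density_of
    refine dn_congr hB (E := fun _ => False) ?_ fun n _ _ => ?_
    · exact zd_mono (zd_bdd 0) fun n _ h => absurd h not_false
    · exact and_congr_right fun h => hodd n h
  · apply odd_density_of
    refine dn_congr hB (ht_zd h3 hε) fun m _ hE => ?_
    constructor
    · rintro ⟨hm, hb⟩
      have h4 : ∃ h : ℕ, IsHt m h ∧ |(h : ℝ) - 1 / Real.log (4 / 3) * Real.log m| ≤ ε * Real.log m := by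
        by_contra hcon
        exact hE ⟨hm, hb, hcon⟩
      obtain ⟨h, hh, h5⟩ := h4
      exact ⟨hm, h, height_eq hh, h5⟩
    · rintro ⟨hm, h, hh, _⟩
      refine ⟨hm, (hodd m hm).2 ?_⟩
      rw [hh]; exact ENat.natCast_ne_top h
  · refine trunc_avg (H := IsHt) (f := truncHeight) (one_div_pos.2 (Real.log_pos (by norm_num))) hΛ hB
      (fun ε hε => ht_zd h3 hε) ?_ ?_ ?_
    · intro m h L _ hh
      unfold truncHeight
      rw [height_eq hh]
      rcases le_total h L with hl | hl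
      · rw [min_eq_left hl, min_eq_left (by exact_mod_cast hl)]
        exact ENat.toNat_natCast _
      · rw [min_eq_right hl, min_eq_right (by exact_mod_cast hl)]
        exact ENat.toNat_natCast _
    · intro m L hm hb
      unfold truncHeight
      rw [height_top (fun h => hb ((ht_iff (Nat.odd_iff.2 hm)).2 h)), min_eq_right le_top]
      exact ENat.toNat_natCast _
    · intro m L
      unfold truncHeight
      exact ENat.toNat_le_of_le_natCast (min_le_right _ _)

end Pool.Agent.Results.MP_2b866c_nt.TruncatedAverages
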